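import Mathlib

/-!
Real characters of elementary abelian 2-groups and averaging.
-/

namespace Pool.Agent.H422R3.Kom

open Finset

variable {H : Type} [CommGroup H] [Fintype H]

/-- a real character -/
def IsChar (χ : H → ℝ) : Prop := (∀ y, χ y = 1 ∨ χ y = -1) ∧ ∀ x y, χ (x * y) = χ x * χ y

/-- there is a finite nonempty family of characters with orthogonality -/
lemma exists_family (h2 : ∀ a : H, a * a = 1) :
    ∃ (X : Type) (_ : Fintype X) (_ : Nonempty X) (s : X → H → ℝ), (∀ ψ, IsChar (s ψ)) ∧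
      ∀ y : H, y ≠ 1 → ∑ ψ, s ψ y = 0 := by
  classical
  let _ : Module (ZMod 2) (Additive H) := AddCommGroup.zmodModule (n := 2) (by
    intro x
    rw [two_nsmul]
    exact h2 x.toMul)
  let X := Module.Dual (ZMod 2) (Additive H)
  have hfin : Finite X := DFunLike.finite X
  let _ : Fintype X := Fintype.ofFinite X
  let s : X → H → ℝ := fun ψ y => if ψ (Additive.ofMul y) = 0 then 1 else -1
  have h01 : ∀ a : ZMod 2, a = 0 ∨ a = 1 := by decide
  have hmul : ∀ ψ : X, ∀ x y, s ψ (x * y) = s ψ x * s ψ y := by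
    intro ψ x y
    simp only [s, ofMul_mul, map_add]
    rcases h01 (ψ (Additive.ofMul x)) with h | h <;> rcases h01 (ψ (Additive.ofMul y)) with h' | h' <;>
      rw [h, h'] <;> norm_num <;> decide
  have hpm : ∀ ψ : X, ∀ y, s ψ y = 1 ∨ s ψ y = -1 := by
    intro ψ y
    simp only [s]
    split_ifs <;> simp
  refine ⟨X, inferInstance, ⟨0⟩, s, fun ψ => ⟨hpm ψ, hmul ψ⟩, ?_⟩
  intro y hy
  have hy' : Additive.ofMul y ≠ 0 := fun h => hy h
  obtain ⟨ψ₀, hψ₀⟩ : ∃ ψ₀ : X, ψ₀ (Additive.ofMul y) ≠ 0 := by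
    by_contra hcon
    push Not at hcon
    exact hy' ((Module.forall_dual_apply_eq_zero_iff (ZMod 2) _).mp hcon)
  have h1 : ψ₀ (Additive.ofMul y) = 1 := (h01 _).resolve_left hψ₀
  have h3 : ∀ ψ : X, s (ψ + ψ₀) y = - s ψ y := by
    intro ψ
    have e : (ψ + ψ₀) (Additive.ofMul y) = ψ (Additive.ofMul y) + 1 := by rw [← h1]; rfl
    simp only [s, e]
    rcases h01 (ψ (Additive.ofMul y)) with h | h
    · rw [h]; norm_num
    · rw [h, if_pos (by decide), if_neg (by decide)]; norm_num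
  have h4 : ∑ ψ, s ψ y = ∑ ψ, s (ψ + ψ₀) y :=
    (Equiv.sum_comp (Equiv.addRight ψ₀) (fun ψ => s ψ y)).symm
  simp_rw [h3] at h4
  rw [Finset.sum_neg_distrib] at h4
  linarith

/-- averaging over characters -/
lemma char_avg (h2 : ∀ a : H, a * a = 1) {T : Type} (S : Finset T) (f : T → H → ℝ) :
    ∃ χ : H → ℝ, IsChar χ ∧ ∑ t ∈ S, (∑ y, f t y * χ y) ^ 2 ≤ ∑ t ∈ S, ∑ y, f t y ^ 2 := by
  classical
  obtain ⟨X, _, _, s, hs, horth⟩ := exists_family h2
  have hs1 : ∀ ψ, s ψ 1 = 1 := by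
    intro ψ
    have := (hs ψ).2 1 1
    rw [mul_one] at this
    rcases (hs ψ).1 1 with h | h
    · exact h
    · rw [h] at this; norm_num at this
  have hpars : ∀ g : H → ℝ, ∑ ψ, (∑ y, g y * s ψ y) ^ 2 = Fintype.card X * ∑ y, g y ^ 2 := by
    intro g
    have e1 : ∀ ψ, (∑ y, g y * s ψ y) ^ 2 = ∑ y, ∑ z, g y * g z * s ψ (y * z) := by
      intro ψ
      rw [sq, Finset.sum_mul_sum]
      apply Finset.sum_congr rfl
      intro y _
      apply Finset.sum_congr rfl
      intro z _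
      rw [(hs ψ).2]; ring
    simp_rw [e1]
    rw [Finset.sum_comm]
    have e2 : ∀ y, ∑ ψ, ∑ z, g y * g z * s ψ (y * z) = Fintype.card X * g y ^ 2 := by
      intro y
      rw [Finset.sum_comm]
      rw [Finset.sum_eq_single y]
      · rw [← Finset.mul_sum]
        have : ∀ ψ, s ψ (y * y) = 1 := fun ψ => by rw [h2, hs1]
        simp_rw [this]
        rw [Finset.sum_const, nsmul_eq_mul, Finset.card_univ]
        ring
      · intro z _ hz
        rw [← Finset.mul_sum]
        have : y * z ≠ 1 := by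
          intro h
          apply hz
          have e : z = y⁻¹ := eq_inv_of_mul_eq_one_right h
          rw [e]
          exact inv_eq_of_mul_eq_one_left (h2 y)
        rw [horth _ this, mul_zero]
      · intro h
        exact absurd (Finset.mem_univ y) h
    simp_rw [e2]
    rw [Finset.mul_sum]
  have htot : ∑ ψ, ∑ t ∈ S, (∑ y, f t y * s ψ y) ^ 2 = ∑ ψ : X, ∑ t ∈ S, ∑ y, f t y ^ 2 := by
    rw [Finset.sum_comm]
    simp_rw [hpars]
    rw [Finset.sum_const, nsmul_eq_mul, Finset.card_univ, Finset.mul_sum]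
  obtain ⟨ψ, _, hψ⟩ := Finset.exists_le_of_sum_le (s := (univ : Finset X))
    ⟨Classical.arbitrary X, Finset.mem_univ _⟩ htot.le
  exact ⟨s ψ, hs ψ, hψ⟩

end Pool.Agent.H422R3.Kom
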