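import Pool.Agent.H422R3.Kom.Main

/-!
Final form: groups written multiplicatively, no commutativity hypothesis.
-/

namespace Pool.Agent.H422R3.Kom

open MulAction

theorem final {H R C : Type} [Group H] [Finite H] [Fintype R] [Fintype C] [MulAction H R]
    [MulAction H C] (h2 : ∀ a : H, a * a = 1) (hR : ∀ (a : H) (r : R), a • r = r → a = 1)
    (hC : ∀ (a : H) (c : C), a • c = c → a = 1) (A : R → C → ℝ)
    (hA : ∀ (a : H) r c, A (a • r) (a • c) = A r c) (hcol : ∀ c, ∑ r, A r c ^ 2 ≤ 1) :
    (∃ ε : C → ℝ, (∀ c, ε c = 1 ∨ ε c = -1) ∧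
      ∀ r, |∑ c, A r c * ε c| ≤ Real.sqrt (Nat.card (orbitRel.Quotient H C))) ∧
    (∃ ε : C → ℝ, (∀ c, ε c = 1 ∨ ε c = -1) ∧
      ∀ r, |∑ c, A r c * ε c| ≤
        280000000 * (1 + Real.log (Nat.card (orbitRel.Quotient H C))) ^ (5 / 4 : ℝ)) := by
  classical
  have comm : ∀ a b : H, a * b = b * a := by
    intro a b
    have h1 := h2 (a * b)
    have h3 : (a * b)⁻¹ = a * b := inv_eq_of_mul_eq_one_left h1
    rw [mul_inv_rev, inv_eq_of_mul_eq_one_left (h2 a), inv_eq_of_mul_eq_one_left (h2 b)] at h3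
    exact h3.symm
  let _ : CommGroup H := { (inferInstance : Group H) with mul_comm := comm }
  have : Fintype H := Fintype.ofFinite H
  have : Fintype (orbitRel.Quotient H R) := Fintype.ofFinite _
  have : Fintype (orbitRel.Quotient H C) := Fintype.ofFinite _
  refine ⟨?_, ?_⟩
  · refine transfer h2 hR hC A hA hcol _ ?_
    intro f hf
    have := sqrtBound h2 f hf
    rw [Nat.card_eq_fintype_card]
    exact this
  · rcases isEmpty_or_nonempty C with hE | hN
    · refine ⟨fun _ => 1, fun _ => Or.inl rfl, fun r => ?_⟩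
      have h0 : Nat.card (orbitRel.Quotient H C) = 0 := by
        rw [Nat.card_eq_zero]
        left
        exact ⟨fun q => Quotient.inductionOn' q (fun c => hE.false c)⟩
      rw [h0]
      simp
    · refine transfer h2 hR hC A hA hcol _ ?_
      intro f hf
      have : Nonempty (orbitRel.Quotient H C) := ⟨Quotient.mk'' (Classical.arbitrary C)⟩
      have := poly h2 f hf
      rw [Nat.card_eq_fintype_card]
      exact this

end Pool.Agent.H422R3.Kom
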