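import Pool.Agent.H422R3.Kom.Round

/-!
Signings of matrices with a free action of an elementary abelian 2-group.
-/

namespace Pool.Agent.H422R3.Kom

open Finset

variable {H : Type} [CommGroup H] [Fintype H]

lemma iterate (h2 : ∀ a : H, a * a = 1) {I J : Type} [Fintype I] [Fintype J]
    (f : I → J → H → ℝ) (hf : ∀ j, ∑ i, ∑ y, f i j y ^ 2 ≤ 1) :
    ∀ (t : ℕ) (S : Finset J), S.card < 2 ^ t →
    ∃ ε : J → H → ℝ, (∀ j y, ε j y = 1 ∨ ε j y = -1) ∧
      ∀ i x, |∑ j ∈ S, ∑ y, f i j (x * y) * ε j y| ≤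
        t * (Real.sqrt 2 * (70000000 * (1 + Real.log (1 + (Fintype.card J : ℝ))) ^ (1 / 4 : ℝ))) := by
  classical
  intro t
  induction t with
  | zero =>
    intro S hS
    have : S = ∅ := by
      rw [← Finset.card_eq_zero]; omega
    refine ⟨fun _ _ => 1, fun _ _ => Or.inl rfl, ?_⟩
    intro i x
    simp [this]
  | succ t ih =>
    intro S hS
    obtain ⟨T, ε1, hTS, hcard, hε1, hb1⟩ := round h2 f hf S
    have hlt : (S \ T).card < 2 ^ t := by
      rw [Finset.card_sdiff_of_subset hTS]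
      rw [pow_succ] at hS
      omega
    obtain ⟨ε2, hε2, hb2⟩ := ih (S \ T) hlt
    refine ⟨fun j y => if j ∈ T then ε1 j y else ε2 j y, ?_, ?_⟩
    · intro j y
      dsimp only
      split_ifs
      · exact hε1 j y
      · exact hε2 j y
    · intro i x
      have hsplit : ∑ j ∈ S, ∑ y, f i j (x * y) * (if j ∈ T then ε1 j y else ε2 j y) =
          ∑ j ∈ T, ∑ y, f i j (x * y) * ε1 j y + ∑ j ∈ S \ T, ∑ y, f i j (x * y) * ε2 j y := by
        rw [← Finset.sum_sdiff hTS, add_comm]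
        congr 1
        · apply Finset.sum_congr rfl
          intro j hj
          simp [hj]
        · apply Finset.sum_congr rfl
          intro j hj
          simp [(Finset.mem_sdiff.mp hj).2]
      rw [hsplit]
      refine le_trans (abs_add_le _ _) ?_
      have h3 := hb1 i x
      have h4 := hb2 i x
      push_cast
      linarith

/-- polylogarithmic bound -/
lemma poly (h2 : ∀ a : H, a * a = 1) {I J : Type} [Fintype I] [Fintype J] [Nonempty J]
    (f : I → J → H → ℝ) (hf : ∀ j, ∑ i, ∑ y, f i j y ^ 2 ≤ 1) :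
    ∃ ε : J → H → ℝ, (∀ j y, ε j y = 1 ∨ ε j y = -1) ∧
      ∀ i x, |∑ j, ∑ y, f i j (x * y) * ε j y| ≤
        280000000 * (1 + Real.log (Fintype.card J : ℝ)) ^ (5 / 4 : ℝ) := by
  classical
  set m := Fintype.card J with hm
  have hm1 : 1 ≤ m := Fintype.card_pos
  have hmR : (1 : ℝ) ≤ (m : ℝ) := by exact_mod_cast hm1
  obtain ⟨ε, hε, hb⟩ := iterate h2 f hf (Nat.log 2 m + 1) univ (by
    rw [Finset.card_univ, ← hm]
    exact Nat.lt_pow_succ_log_self (by norm_num) m)
  refine ⟨ε, hε, fun i x => le_trans (hb i x) ?_⟩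
  have hlogm : 0 ≤ Real.log (m : ℝ) := Real.log_nonneg hmR
  set L : ℝ := 1 + Real.log (m : ℝ) with hL
  have hL1 : 1 ≤ L := by linarith
  have hlog2 : (0.69 : ℝ) < Real.log 2 := by
    have := Real.log_two_gt_d9; linarith
  have hlog2' : Real.log 2 < 0.7 := by
    have := Real.log_two_lt_d9; linarith
  have h3 : (Nat.log 2 m : ℝ) * Real.log 2 ≤ Real.log (m : ℝ) := by
    have h4 : (2 : ℝ) ^ (Nat.log 2 m) ≤ m := by
      exact_mod_cast Nat.pow_log_le_self 2 (by omega)
    have h5 := Real.log_le_log (by positivity) h4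
    rwa [Real.log_pow] at h5
  have h4 : ((Nat.log 2 m + 1 : ℕ) : ℝ) ≤ 1.5 * L := by
    push_cast
    have h6 : (Nat.log 2 m : ℝ) * 0.69 ≤ Real.log (m : ℝ) :=
      le_trans (mul_le_mul_of_nonneg_left hlog2.le (Nat.cast_nonneg _)) h3
    rw [hL]
    nlinarith
  have h5 : 1 + Real.log (1 + (m : ℝ)) ≤ 2 * L := by
    have : Real.log (1 + (m : ℝ)) ≤ Real.log (2 * m) := Real.log_le_log (by positivity) (by linarith)
    rw [Real.log_mul (by norm_num) (by positivity)] at this
    rw [hL]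
    linarith
  have h6 : (1 + Real.log (1 + (m : ℝ))) ^ (1 / 4 : ℝ) ≤ 1.2 * L ^ (1 / 4 : ℝ) := by
    have h7 : (1 + Real.log (1 + (m : ℝ))) ^ (1 / 4 : ℝ) ≤ (2 * L) ^ (1 / 4 : ℝ) := by
      apply Real.rpow_le_rpow _ h5 (by norm_num)
      have : 0 ≤ Real.log (1 + (m : ℝ)) := Real.log_nonneg (by linarith)
      linarith
    refine le_trans h7 ?_
    rw [Real.mul_rpow (by norm_num) (by linarith)]
    apply mul_le_mul_of_nonneg_right _ (by positivity)
    have h8 : (2 : ℝ) ≤ 1.2 ^ (4 : ℝ) := by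
      rw [show (4 : ℝ) = ((4 : ℕ) : ℝ) by norm_num, Real.rpow_natCast]; norm_num
    calc (2 : ℝ) ^ (1 / 4 : ℝ) ≤ (1.2 ^ (4 : ℝ)) ^ (1 / 4 : ℝ) :=
          Real.rpow_le_rpow (by norm_num) h8 (by norm_num)
      _ = 1.2 := by rw [← Real.rpow_mul (by norm_num)]; norm_num
  have hsqrt : Real.sqrt 2 ≤ 1.5 := by
    rw [Real.sqrt_le_left (by norm_num)]; norm_num
  have h9 : L ^ (5 / 4 : ℝ) = L * L ^ (1 / 4 : ℝ) := by
    rw [show (5 / 4 : ℝ) = 1 + 1 / 4 by norm_num, Real.rpow_add (by linarith), Real.rpow_one]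
  rw [h9]
  have hP : 0 ≤ L ^ (1 / 4 : ℝ) := by positivity
  calc ((Nat.log 2 m + 1 : ℕ) : ℝ) * (Real.sqrt 2 * (70000000 * (1 + Real.log (1 + (m : ℝ))) ^ (1 / 4 : ℝ)))
      ≤ (1.5 * L) * (1.5 * (70000000 * (1.2 * L ^ (1 / 4 : ℝ)))) := by
        have hp : 0 ≤ (1 + Real.log (1 + (m : ℝ))) ^ (1 / 4 : ℝ) := by
          apply Real.rpow_nonneg
          have : 0 ≤ Real.log (1 + (m : ℝ)) := Real.log_nonneg (by linarith)
          linarith
        refine mul_le_mul h4 (mul_le_mul hsqrt (mul_le_mul_of_nonneg_left h6 (by norm_num))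
          (mul_nonneg (by norm_num) hp) (by norm_num))
          (mul_nonneg (Real.sqrt_nonneg _) (mul_nonneg (by norm_num) hp)) (by positivity)
    _ ≤ 280000000 * (L * L ^ (1 / 4 : ℝ)) := by
        have : 0 ≤ L * L ^ (1 / 4 : ℝ) := by positivity
        nlinarith

/-- square root bound -/
lemma sqrtBound (h2 : ∀ a : H, a * a = 1) {I J : Type} [Fintype I] [Fintype J]
    (f : I → J → H → ℝ) (hf : ∀ j, ∑ i, ∑ y, f i j y ^ 2 ≤ 1) :
    ∃ ε : J → H → ℝ, (∀ j y, ε j y = 1 ∨ ε j y = -1) ∧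
      ∀ i x, |∑ j, ∑ y, f i j (x * y) * ε j y| ≤ Real.sqrt (Fintype.card J) := by
  classical
  obtain ⟨χ, hχ, hav⟩ := char_avg h2 ((univ : Finset J) ×ˢ (univ : Finset I)) (fun t y => f t.2 t.1 y)
  rw [Finset.sum_product, Finset.sum_product] at hav
  simp only at hav
  obtain ⟨σ, hσ, hb⟩ := greedy (I := I) (fun i j => ∑ y, f i j y * χ y) (univ : Finset J)
  have hle : ∑ i, (∑ j, (∑ y, f i j y * χ y) * σ j) ^ 2 ≤ Fintype.card J := by
    calc _ ≤ _ := hb
      _ = ∑ j, ∑ i, (∑ y, f i j y * χ y) ^ 2 := Finset.sum_comm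
      _ ≤ ∑ j, ∑ i, ∑ y, f i j y ^ 2 := hav
      _ ≤ ∑ j : J, (1 : ℝ) := Finset.sum_le_sum fun j _ => hf j
      _ = Fintype.card J := by simp
  refine ⟨fun j y => σ j * χ y, ?_, ?_⟩
  · intro j y
    change σ j * χ y = 1 ∨ σ j * χ y = -1
    rcases hσ j with h | h <;> rcases hχ.1 y with h' | h' <;> rw [h, h'] <;> norm_num
  · intro i x
    have h1 : ∀ j, ∑ y, f i j (x * y) * (σ j * χ y) = χ x * ((∑ y, f i j y * χ y) * σ j) := by
      intro j
      have e1 : ∀ y, f i j (x * y) * (σ j * χ y) = χ x * (f i j (x * y) * χ (x * y) * σ j) := by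
        intro y
        rw [hχ.2]
        have : χ x * χ x = 1 := by rcases hχ.1 x with h | h <;> rw [h] <;> norm_num
        linear_combination (-(f i j (x * y) * σ j * χ y)) * this
      simp_rw [e1]
      rw [← Finset.mul_sum, ← Finset.sum_mul]
      congr 2
      exact Equiv.sum_comp (Equiv.mulLeft x) (fun y => f i j y * χ y)
    simp_rw [h1]
    rw [← Finset.mul_sum, abs_mul]
    have hx1 : |χ x| = 1 := by rcases hχ.1 x with h | h <;> rw [h] <;> norm_num
    rw [hx1, one_mul]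
    apply Real.abs_le_sqrt
    refine le_trans ?_ hle
    exact Finset.single_le_sum (f := fun i => (∑ j, (∑ y, f i j y * χ y) * σ j) ^ 2)
      (fun i _ => sq_nonneg _) (Finset.mem_univ i)

section action

variable {R C : Type} [Fintype R] [Fintype C] [MulAction H R] [MulAction H C]

open MulAction

/-- a free action has coordinates -/
lemma coords {X : Type} [MulAction H X] (hfree : ∀ (a : H) (x : X), a • x = x → a = 1) :
    Function.Bijective (fun p : orbitRel.Quotient H X × H => p.2 • Quotient.out p.1) := by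
  constructor
  · rintro ⟨i, x⟩ ⟨i', x'⟩ h
    simp only at h
    have hi : i = i' := by
      have h1 : (Quotient.mk (orbitRel H X) (x • Quotient.out i)) = i := by
        have : (Quotient.mk (orbitRel H X) (x • Quotient.out i)) =
            Quotient.mk (orbitRel H X) (Quotient.out i) := Quotient.sound ⟨x, rfl⟩
        rw [this]; exact Quotient.out_eq i
      have h2 : (Quotient.mk (orbitRel H X) (x' • Quotient.out i')) = i' := by
        have : (Quotient.mk (orbitRel H X) (x' • Quotient.out i')) =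
            Quotient.mk (orbitRel H X) (Quotient.out i') := Quotient.sound ⟨x', rfl⟩
        rw [this]; exact Quotient.out_eq i'
      rw [← h1, ← h2, h]
    subst hi
    have h3 : (x'⁻¹ * x) • Quotient.out i = Quotient.out i := by
      rw [mul_smul, h, inv_smul_smul]
    have h4 := hfree _ _ h3
    have h5 := inv_mul_eq_one.mp h4
    rw [h5]
  · intro r
    obtain ⟨x, hx⟩ : ∃ x : H, x • Quotient.out (Quotient.mk (orbitRel H X) r) = r := by
      have h1 : (orbitRel H X) (Quotient.out (Quotient.mk (orbitRel H X) r)) r := Quotient.mk_out r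
      obtain ⟨x, hx⟩ := h1
      refine ⟨x⁻¹, ?_⟩
      rw [inv_smul_eq_iff]
      exact hx.symm
    exact ⟨(_, x), hx⟩

/-- transfer from coordinates to actions -/
lemma transfer (h2 : ∀ a : H, a * a = 1) (hR : ∀ (a : H) (r : R), a • r = r → a = 1)
    (hC : ∀ (a : H) (c : C), a • c = c → a = 1) (A : R → C → ℝ)
    (hA : ∀ (a : H) r c, A (a • r) (a • c) = A r c) (hcol : ∀ c, ∑ r, A r c ^ 2 ≤ 1) (B : ℝ)
    [Fintype (orbitRel.Quotient H R)] [Fintype (orbitRel.Quotient H C)]
    (hB : ∀ f : orbitRel.Quotient H R → orbitRel.Quotient H C → H → ℝ,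
      (∀ j, ∑ i, ∑ y, f i j y ^ 2 ≤ 1) →
      ∃ ε : orbitRel.Quotient H C → H → ℝ, (∀ j y, ε j y = 1 ∨ ε j y = -1) ∧
      ∀ i x, |∑ j, ∑ y, f i j (x * y) * ε j y| ≤ B) :
    ∃ ε : C → ℝ, (∀ c, ε c = 1 ∨ ε c = -1) ∧ ∀ r, |∑ c, A r c * ε c| ≤ B := by
  classical
  let eR := Equiv.ofBijective _ (coords (H := H) (X := R) hR)
  let eC := Equiv.ofBijective _ (coords (H := H) (X := C) hC)
  have hinv : ∀ a : H, a⁻¹ = a := fun a => inv_eq_of_mul_eq_one_left (h2 a)
  obtain ⟨ε, hε, hb⟩ := hB (fun i j y => A (Quotient.out i) (y • Quotient.out j)) (by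
    intro j
    calc ∑ i, ∑ y : H, A (Quotient.out i) (y • Quotient.out j) ^ 2
        = ∑ i, ∑ y : H, A (y • Quotient.out i) (Quotient.out j) ^ 2 := by
          apply Finset.sum_congr rfl
          intro i _
          apply Finset.sum_congr rfl
          intro y _
          rw [← hA y (Quotient.out i) (y • Quotient.out j), ← mul_smul, h2, one_smul]
      _ = ∑ p : orbitRel.Quotient H R × H, A (eR p) (Quotient.out j) ^ 2 := by
          rw [Fintype.sum_prod_type]
          rfl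
      _ = ∑ r, A r (Quotient.out j) ^ 2 := Equiv.sum_comp eR (fun r => A r (Quotient.out j) ^ 2)
      _ ≤ 1 := hcol _)
  refine ⟨fun c => ε (eC.symm c).1 (eC.symm c).2, fun c => hε _ _, ?_⟩
  intro r
  obtain ⟨⟨i, x⟩, rfl⟩ := eR.surjective r
  have h1 : ∑ c, A (eR (i, x)) c * ε (eC.symm c).1 (eC.symm c).2 =
      ∑ j, ∑ y, A (Quotient.out i) ((x * y) • Quotient.out j) * ε j y := by
    rw [← Equiv.sum_comp eC, Fintype.sum_prod_type]
    apply Finset.sum_congr rfl
    intro j _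
    apply Finset.sum_congr rfl
    intro y _
    rw [Equiv.symm_apply_apply]
    congr 1
    change A (x • Quotient.out i) (y • Quotient.out j) = _
    rw [← hA x, ← mul_smul, h2, one_smul, mul_smul]
  rw [h1]
  exact hb i x

end action

end Pool.Agent.H422R3.Kom
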