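import Pool.Agent.H422R3.Kom.Char
import Pool.Agent.H167R2.KPDist

/-!
Rounds of partial signings.
-/

namespace Pool.Agent.H422R3.Kom

open Finset

/-- the dimension-free Komlós bound from the library -/
lemma komlos {I J : Type} [Fintype I] [Fintype J] (a : I → J → ℝ)
    (col : ∀ v, ∑ i, a i v ^ 2 ≤ 1) :
    ∃ y : J → ℝ, (∀ j, y j = 1 ∨ y j = -1) ∧
      ∀ i, |∑ v, a i v * y v| ≤ 70000000 * (1 + Real.log (1 + (Fintype.card J : ℝ))) ^ (1 / 4 : ℝ) := by
  classical
  have hle : ∀ i v, |a i v| ≤ 1 := by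
    intro i v
    have h1 : a i v ^ 2 ≤ 1 :=
      le_trans (Finset.single_le_sum (f := fun i => a i v ^ 2) (fun i _ => sq_nonneg _)
        (Finset.mem_univ i)) (col v)
    rw [← sq_abs] at h1
    have h2 := abs_nonneg (a i v)
    nlinarith
  obtain ⟨y, hy1, hy2⟩ := H167KN.komlos_form2 a 1 one_pos le_rfl hle col (max 1 (Fintype.card J))
    (le_max_left _ _) (fun v => le_trans (Finset.card_le_univ _) (le_max_right _ _)) 0
    (fun _ => 0) (fun _ => by simp)
  refine ⟨y, fun j => ?_, fun i => ?_⟩
  · rcases eq_or_eq_neg_of_abs_eq (hy1 j) with h | h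
    · exact Or.inl h
    · exact Or.inr h
  · have h3 := hy2 i
    simp only [sub_zero, Nat.cast_zero, zero_mul, zero_add, Function.iterate_one] at h3
    refine le_trans h3 (mul_le_mul_of_nonneg_left ?_ (by norm_num))
    refine le_trans (min_le_left _ _) ?_
    have hl : Real.log (1 / 1 : ℝ) = 0 := by norm_num
    rw [hl, add_zero]
    have hs : 0 ≤ H167BK.slog ((min (Fintype.card I) (Fintype.card J) : ℕ) : ℝ) :=
      H167BK.slog_nonneg (Nat.cast_nonneg _)
    have hle2 : H167BK.slog ((min (Fintype.card I) (Fintype.card J) : ℕ) : ℝ) ≤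
        Real.log (1 + (Fintype.card J : ℝ)) := by
      unfold H167BK.slog
      have h4 : ((min (Fintype.card I) (Fintype.card J) : ℕ) : ℝ) ≤ (Fintype.card J : ℝ) := by
        exact_mod_cast min_le_right _ _
      apply Real.log_le_log
      · positivity
      · linarith
    exact Real.rpow_le_rpow (by linarith) (by linarith) (by norm_num)

/-- greedy signs -/
lemma greedy {I T : Type} [Fintype I] (B : I → T → ℝ) (S : Finset T) :
    ∃ σ : T → ℝ, (∀ j, σ j = 1 ∨ σ j = -1) ∧
      ∑ i, (∑ j ∈ S, B i j * σ j) ^ 2 ≤ ∑ i, ∑ j ∈ S, B i j ^ 2 := by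
  classical
  induction S using Finset.induction_on with
  | empty => exact ⟨fun _ => 1, fun _ => Or.inl rfl, by simp⟩
  | insert j S hj ih =>
    obtain ⟨σ, hσ, hb⟩ := ih
    set c : ℝ := ∑ i, B i j * ∑ k ∈ S, B i k * σ k with hc
    let e : ℝ := if 0 ≤ c then -1 else 1
    have he : e = 1 ∨ e = -1 := by
      simp only [e]; split_ifs <;> simp
    have hec : e * c ≤ 0 := by
      simp only [e]; split_ifs with h
      · linarith
      · push Not at h; linarith
    refine ⟨Function.update σ j e, ?_, ?_⟩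
    · intro k
      by_cases hk : k = j
      · rw [hk, Function.update_self]; exact he
      · rw [Function.update_of_ne hk]; exact hσ k
    · have h1 : ∀ i, ∑ k ∈ insert j S, B i k * Function.update σ j e k =
          B i j * e + ∑ k ∈ S, B i k * σ k := by
        intro i
        rw [Finset.sum_insert hj, Function.update_self]
        congr 1
        apply Finset.sum_congr rfl
        intro k hk
        rw [Function.update_of_ne (fun h => hj (by rw [← h]; exact hk))]
      have h2 : ∀ i, (∑ k ∈ insert j S, B i k * Function.update σ j e k) ^ 2 =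
          B i j ^ 2 + (∑ k ∈ S, B i k * σ k) ^ 2 + 2 * e * (B i j * ∑ k ∈ S, B i k * σ k) := by
        intro i
        rw [h1 i]
        have : e ^ 2 = 1 := by rcases he with h | h <;> rw [h] <;> norm_num
        linear_combination (B i j ^ 2) * this
      have h3 : ∀ i, ∑ k ∈ insert j S, B i k ^ 2 = B i j ^ 2 + ∑ k ∈ S, B i k ^ 2 := fun i =>
        Finset.sum_insert hj
      simp_rw [h2, h3]
      rw [Finset.sum_add_distrib, Finset.sum_add_distrib, Finset.sum_add_distrib, ← Finset.mul_sum, ← hc]
      nlinarith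

variable {H : Type} [CommGroup H] [Fintype H]

/-- one round: at least half of the columns are signed -/
lemma round (h2 : ∀ a : H, a * a = 1) {I J : Type} [Fintype I] [Fintype J]
    (f : I → J → H → ℝ) (hf : ∀ j, ∑ i, ∑ y, f i j y ^ 2 ≤ 1) (S : Finset J) :
    ∃ (T : Finset J) (ε : J → H → ℝ), T ⊆ S ∧ S.card ≤ 2 * T.card ∧
      (∀ j y, ε j y = 1 ∨ ε j y = -1) ∧
      ∀ i x, |∑ j ∈ T, ∑ y, f i j (x * y) * ε j y| ≤
        Real.sqrt 2 * (70000000 * (1 + Real.log (1 + (Fintype.card J : ℝ))) ^ (1 / 4 : ℝ)) := by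
  classical
  obtain ⟨χ, hχ, hav⟩ := char_avg h2 (S ×ˢ (univ : Finset I)) (fun t y => f t.2 t.1 y)
  rw [Finset.sum_product, Finset.sum_product] at hav
  simp only at hav
  set N : J → ℝ := fun j => ∑ i, (∑ y, f i j y * χ y) ^ 2 with hN
  have hNnn : ∀ j, 0 ≤ N j := fun j => Finset.sum_nonneg fun i _ => sq_nonneg _
  have htot : ∑ j ∈ S, N j ≤ S.card := by
    calc ∑ j ∈ S, N j ≤ ∑ j ∈ S, ∑ i, ∑ y, f i j y ^ 2 := hav
      _ ≤ ∑ j ∈ S, (1 : ℝ) := Finset.sum_le_sum fun j _ => hf j
      _ = S.card := by simp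
  let T := S.filter fun j => N j ≤ 2
  have hbad : 2 * ((S.filter fun j => ¬ N j ≤ 2).card : ℝ) ≤ S.card := by
    calc 2 * ((S.filter fun j => ¬ N j ≤ 2).card : ℝ)
        = ∑ j ∈ S.filter (fun j => ¬ N j ≤ 2), (2 : ℝ) := by
          rw [Finset.sum_const, nsmul_eq_mul]; ring
      _ ≤ ∑ j ∈ S.filter (fun j => ¬ N j ≤ 2), N j := by
          apply Finset.sum_le_sum
          intro j hj
          have := (Finset.mem_filter.mp hj).2
          push Not at this
          exact this.le
      _ ≤ ∑ j ∈ S, N j := Finset.sum_le_sum_of_subset_of_nonneg (Finset.filter_subset _ _)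
          (fun j _ _ => hNnn j)
      _ ≤ S.card := htot
  have hcard : S.card ≤ 2 * T.card := by
    have h1 : T.card + (S.filter fun j => ¬ N j ≤ 2).card = S.card :=
      Finset.card_filter_add_card_filter_not _
    have h3 : 2 * (S.filter fun j => ¬ N j ≤ 2).card ≤ S.card := by exact_mod_cast hbad
    omega
  -- Komlós on T
  obtain ⟨σ, hσ, hb⟩ := komlos (I := I) (J := T)
    (fun i j => (∑ y, f i j.1 y * χ y) / Real.sqrt 2) (by
      intro j
      have h1 := (Finset.mem_filter.mp j.2).2
      simp only [div_pow]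
      rw [← Finset.sum_div, Real.sq_sqrt (by norm_num), div_le_one (by norm_num)]
      exact h1)
  let σ' : J → ℝ := fun j => if h : j ∈ T then σ ⟨j, h⟩ else 1
  have hσ' : ∀ j, σ' j = 1 ∨ σ' j = -1 := by
    intro j
    simp only [σ']
    split_ifs with h
    · exact hσ _
    · exact Or.inl rfl
  refine ⟨T, fun j y => σ' j * χ y, Finset.filter_subset _ _, hcard, ?_, ?_⟩
  · intro j y
    change σ' j * χ y = 1 ∨ σ' j * χ y = -1
    rcases hσ' j with h | h <;> rcases hχ.1 y with h' | h' <;> rw [h, h'] <;> norm_num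
  · intro i x
    have h1 : ∀ j, ∑ y, f i j (x * y) * (σ' j * χ y) = χ x * ((∑ y, f i j y * χ y) * σ' j) := by
      intro j
      have e1 : ∀ y, f i j (x * y) * (σ' j * χ y) = χ x * (f i j (x * y) * χ (x * y) * σ' j) := by
        intro y
        rw [hχ.2]
        have : χ x * χ x = 1 := by rcases hχ.1 x with h | h <;> rw [h] <;> norm_num
        linear_combination (-(f i j (x * y) * σ' j * χ y)) * this
      simp_rw [e1]
      rw [← Finset.mul_sum, ← Finset.sum_mul]
      congr 2
      exact Equiv.sum_comp (Equiv.mulLeft x) (fun y => f i j y * χ y)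
    simp_rw [h1]
    rw [← Finset.mul_sum, abs_mul]
    have hx1 : |χ x| = 1 := by rcases hχ.1 x with h | h <;> rw [h] <;> norm_num
    rw [hx1, one_mul]
    have h2 := hb i
    have h3 : ∑ j ∈ T, (∑ y, f i j y * χ y) * σ' j =
        Real.sqrt 2 * ∑ v : T, (∑ y, f i v.1 y * χ y) / Real.sqrt 2 * σ v := by
      rw [← Finset.sum_coe_sort T, Finset.mul_sum]
      apply Finset.sum_congr rfl
      intro v _
      have : σ' v.1 = σ v := by simp [σ']
      rw [this]
      have hs : Real.sqrt 2 ≠ 0 := by positivity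
      field_simp
    rw [h3, abs_mul, abs_of_nonneg (Real.sqrt_nonneg 2)]
    apply mul_le_mul_of_nonneg_left _ (Real.sqrt_nonneg 2)
    refine le_trans h2 ?_
    apply mul_le_mul_of_nonneg_left _ (by norm_num)
    apply Real.rpow_le_rpow
    · have : 0 ≤ Real.log (1 + (Fintype.card T : ℝ)) := Real.log_nonneg (by
        have : (0 : ℝ) ≤ (Fintype.card T : ℝ) := Nat.cast_nonneg _
        linarith)
      linarith
    · have h5 : (Fintype.card T : ℝ) ≤ Fintype.card J := by
        rw [Fintype.card_coe]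
        exact_mod_cast Finset.card_le_univ T
      have : Real.log (1 + (Fintype.card T : ℝ)) ≤ Real.log (1 + (Fintype.card J : ℝ)) := by
        apply Real.log_le_log
        · positivity
        · linarith
      linarith
    · norm_num

end Pool.Agent.H422R3.Kom
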